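import Pool.Agent.Helper36.AM.All

/-! Kakeya sets in `ℝ ^ n` have Hausdorff dimension `n`, for every `n ≥ 2`. -/

set_option autoImplicit false

namespace Pool.Agent.Results.MP_b1773a_an.AllDimensions

/-- THE KAKEYA CONJECTURE: every set in `ℝ ^ n`, `n ≥ 2`, which contains a unit segment in every direction has Hausdorff
dimension `n`. -/
theorem result (n : ℕ) (hn : 2 ≤ n) (K : Set (EuclideanSpace ℝ (Fin n)))
    (hK : ∀ e : EuclideanSpace ℝ (Fin n), ‖e‖ = 1 →
      ∃ p : EuclideanSpace ℝ (Fin n), ∀ t : ℝ, 0 ≤ t → t ≤ 1 → p + t • e ∈ K) :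
    dimH K = n :=
  Pool.Agent.Helper36.AM.kakeya_all_dimensions n hn K hK

end Pool.Agent.Results.MP_b1773a_an.AllDimensions
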