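import Pool.Agent.Helper75.KM.ALL

/-!
# The Kakeya maximal function in high dimension

For `0 < δ < 1` and a measurable `f ≥ 0` on `ℝ^n` let `f*_δ(ω)`, `ω ∈ S^(n-1)`, be the supremum of the
averages of `f` over the `δ`-neighbourhoods of unit segments with direction `ω`. We prove
`‖f*_δ‖_q ≤ C_ε δ^(-(n/d-1)-ε) ‖f‖_d` for `d = (n-1)/1.6752 + 1`, `q = 1.6752 d = (n-1) d'`, in
all dimensions `n ≥ 26`.

Outline: (1) an entropy inequality `H(l|K) ≤ β (H(P,T|K) - H(T|K,l)) + m κ + ε log M` for systems of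
lines in different directions with random heights, where `m = n - 1` and `κ` is the deficit of the
entropy of the height; (2) the two-ends reduction, in entropy form, which costs exactly `m` per unit
of length; (3) the sums-differences step of Katz and Tao, in which the `m κ` errors of the derived
systems enter with total weight below one, so that the step may be iterated; (4) the strong type
bound for the discrete maximal operator, by dyadic decomposition; (5) passage to `ℝ^n`.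
-/

set_option autoImplicit false

namespace Pool.Agent.Results.MP_b1773a_an.MaximalFunction

open MeasureTheory
open scoped ENNReal

/-- the closed `δ`-neighbourhood of the unit segment with centre `a` and direction `ω` -/
def tube {n : ℕ} (δ : ℝ) (a ω : EuclideanSpace ℝ (Fin n)) : Set (EuclideanSpace ℝ (Fin n)) :=
  {y | ∃ s : ℝ, |s| ≤ 1 / 2 ∧ ‖y - (a + s • ω)‖ ≤ δ}

/-- the Kakeya maximal function `f*_δ` -/
noncomputable def maximal {n : ℕ} (δ : ℝ) (f : EuclideanSpace ℝ (Fin n) → ℝ≥0∞)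
    (ω : EuclideanSpace ℝ (Fin n)) : ℝ≥0∞ :=
  ⨆ a : EuclideanSpace ℝ (Fin n), (volume (tube δ a ω))⁻¹ * ∫⁻ y in tube δ a ω, f y

/-- Let `n ≥ 26`, `d = (n-1)/1.6752 + 1` and `q = 1.6752 d`. For every `ε > 0` there is `C` such that
for all `0 < δ < 1` and all measurable `f : ℝ^n → [0,∞]` the maximal function `f*_δ` is measurable and
`‖f*_δ‖_{L^q(S^(n-1))} ≤ C δ^(-(n/d-1)-ε) ‖f‖_{L^d(ℝ^n)}`. -/
theorem result : ∀ (n : ℕ) (d q : ℝ), 26 ≤ n → d = ((n : ℝ) - 1) / 1.6752 + 1 → q = 1.6752 * d →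
    ∀ ε : ℝ, 0 < ε → ∃ C : ℝ, ∀ δ : ℝ, 0 < δ → δ < 1 →
    ∀ f : EuclideanSpace ℝ (Fin n) → ℝ≥0∞, Measurable f →
      Measurable (maximal δ f) ∧
      (∫⁻ ω : Metric.sphere (0 : EuclideanSpace ℝ (Fin n)) 1, maximal δ f ω ^ q
        ∂((volume : Measure (EuclideanSpace ℝ (Fin n))).toSphere)) ^ (1 / q) ≤
      ENNReal.ofReal (C * δ ^ (-((n : ℝ) / d - 1) - ε)) * (∫⁻ y, f y ^ d) ^ (1 / d) := by
  intro n d q hn hd hq ε hε
  obtain ⟨m, rfl⟩ : ∃ m, n = m + 1 := ⟨n - 1, by omega⟩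
  have hm : (0 : ℝ) ≤ m := Nat.cast_nonneg m
  have h := Pool.Agent.Helper75.KM.maxB_all m (by omega)
  obtain ⟨C, hC⟩ := h ε hε
  have ed : d = 1 + (m : ℝ) / 1.6752 := by
    rw [hd]; push_cast; ring
  have eq1 : q = (m : ℝ) + 1.6752 := by
    rw [hq, ed]; ring
  have ee : -(((m + 1 : ℕ) : ℝ) / d - 1) = -((m : ℝ) * (1.6752 - 1) / (m + 1.6752)) := by
    rw [ed]
    have h1 : (m : ℝ) + 1.6752 ≠ 0 := by positivity
    have h2 : 1 + (m : ℝ) / 1.6752 ≠ 0 := by positivity
    push_cast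
    field_simp
    ring
  refine ⟨C, fun δ h0 h1 f hf => ⟨?_, ?_⟩⟩
  · exact Pool.Agent.Helper75.KM.meas_kak δ f hf
  · have h2 := hC δ h0 h1 f hf
    rw [ee, eq1, ed]
    exact h2

end Pool.Agent.Results.MP_b1773a_an.MaximalFunction
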