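import Pool.Agent.Helper70.HS.MainAll

/-!
# Sticky Kakeya sets in all dimensions

A line of `ℝ ^ n` is given by a pair `(p, e)`: a point `p` on it and a unit direction vector `e` (for the set of all
lines one may take for `p` the point of the line that is closest to the origin).
-/

namespace Pool.Agent.Results.MP_b1773a_an.StickyKakeya

/-- The packing dimension of the set `L` of a metric space is at most `s`, in the form of the modified upper box
dimension (Tricot): for every `η > 0` the set `L` is covered by countably many sets `P k`, each of which can be covered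
by at most `C_k δ ^ (-(s + η))` balls of radius `δ`, for every `0 < δ ≤ 1`. -/
def PackingDimLE {X : Type} [MetricSpace X] (s : ℝ) (L : Set X) : Prop :=
  ∀ η : ℝ, 0 < η → ∃ P : ℕ → Set X, L ⊆ (⋃ k, P k) ∧ ∀ k, ∃ C : ℝ, ∀ δ : ℝ, 0 < δ → δ ≤ 1 →
    ∃ F : Finset X, (F.card : ℝ) ≤ C * δ ^ (-(s + η)) ∧ P k ⊆ ⋃ q ∈ F, Metric.closedBall q δ

/-- Let `n ≥ 2`, `s > 0` and `ε ≥ 0`. There is `η ≥ 0`, with `η > 0` if `ε > 0`, such that for every set `L` of lines of
`ℝ ^ n` (pairs: point, unit direction) and every set `K`: if `L` has packing dimension at most `s + η`, the directions of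
the lines of `L` form a set of Hausdorff dimension at least `s - η`, and every line of `L` meets `K` in a set of Hausdorff
dimension at least `1 - η`, then `dim_H K ≥ s + 1 - ε`.

`ε = 0` is the exact form (its hypotheses hold in particular if they hold with `0` in place of `η`). The case
`s = n - 1`, `ε = 0`: if `K` contains a unit segment in every direction, on lines that form a set of packing dimension
`n - 1`, then `dim_H K = n` (sticky Kakeya sets). -/
theorem result (n : ℕ) (hn : 2 ≤ n) (s ε : ℝ) (hs : 0 < s) (hε : 0 ≤ ε) :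
    ∃ η : ℝ, 0 ≤ η ∧ (0 < ε → 0 < η) ∧
      ∀ (L : Set (EuclideanSpace ℝ (Fin n) × EuclideanSpace ℝ (Fin n))) (K : Set (EuclideanSpace ℝ (Fin n))),
        (∀ l ∈ L, ‖l.2‖ = 1) → PackingDimLE (s + η) L → ENNReal.ofReal (s - η) ≤ dimH (Prod.snd '' L) →
        (∀ l ∈ L, ENNReal.ofReal (1 - η) ≤ dimH {t : ℝ | l.1 + t • l.2 ∈ K}) →
        ENNReal.ofReal (s + 1 - ε) ≤ dimH K :=
  Pool.Agent.Helper70.HS.main n hn s ε hs hε

end Pool.Agent.Results.MP_b1773a_an.StickyKakeya
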